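import Pool.Agent.GSHR.Few

set_option autoImplicit false

namespace Pool.Agent.Held1ffb.ChiefFactorStars

open Pool.Agent.GSH
open scoped commutatorElement

/-- `M/N` is a chief factor of `G`. -/
def IsChief {G : Type} [Group G] (N M : Subgroup G) : Prop :=
  N.Normal ∧ M.Normal ∧ N < M ∧
    ∀ R : Subgroup G, R.Normal → N ≤ R → R ≤ M → R = N ∨ R = M

/-- `R` is normal and `G/R` has no nontrivial abelian normal subgroup (for finite `G`: the
solvable radical of `G/R` is trivial). -/
def NoAbelian {G : Type} [Group G] (R : Subgroup G) : Prop :=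
  R.Normal ∧ ∀ N : Subgroup G, N.Normal → R ≤ N → (∀ a ∈ N, ∀ b ∈ N, ⁅a, b⁆ ∈ R) → N = R

/-- the two words have the same contexts in `L` (syntactic congruence of `L`) -/
def SynEq {A : Type} (L : Set (List A)) (w w' : List A) : Prop :=
  ∀ x y : List A, x ++ w ++ y ∈ L ↔ x ++ w' ++ y ∈ L

section groups

variable {G : Type} [Group G]

theorem exists_chief [Finite G] {R C : Subgroup G} (hR : R.Normal) (hC : C.Normal) (h : R < C) :
    ∃ M, IsChief R M ∧ M ≤ C := by
  obtain ⟨M, ⟨hMn, hRM, hMC⟩, hmin⟩ := (wellFounded_lt (α := Subgroup G)).has_min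
    {M | M.Normal ∧ R < M ∧ M ≤ C} ⟨C, hC, h, le_rfl⟩
  refine ⟨M, ⟨hR, hMn, hRM, fun Q hQ hRQ hQM => ?_⟩, hMC⟩
  by_contra hne
  push Not at hne
  exact hmin Q ⟨hQ, lt_of_le_of_ne hRQ (Ne.symm hne.1), hQM.trans hMC⟩
    (lt_of_le_of_ne hQM hne.2)

theorem mem_of_centralises [Finite G] {R : Subgroup G} (hR : NoAbelian R) {g : G}
    (hg : ∀ M, IsChief R M → ∀ m ∈ M, ⁅g, m⁆ ∈ R) : g ∈ R := by
  have hRn := hR.1
  let C : Subgroup G :=
    { carrier := {g | ∀ M, IsChief R M → ∀ m ∈ M, ⁅g, m⁆ ∈ R}
      mul_mem' := by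
        intro a b ha hb M hM m hm
        have e : ⁅a * b, m⁆ = (a * ⁅b, m⁆ * a⁻¹) * ⁅a, m⁆ := by
          simp only [commutatorElement_def]; group
        rw [e]
        exact mul_mem (hRn.conj_mem _ (hb M hM m hm) a) (ha M hM m hm)
      one_mem' := by
        intro M hM m hm
        simp
      inv_mem' := by
        intro a ha M hM m hm
        have e : ⁅a⁻¹, m⁆ = a⁻¹ * ⁅a, m⁆⁻¹ * a⁻¹⁻¹ := by
          simp only [commutatorElement_def]; group
        rw [e]
        exact hRn.conj_mem _ (inv_mem (ha M hM m hm)) _ }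
  have hCn : C.Normal := by
    refine ⟨fun c hc t M hM m hm => ?_⟩
    have h1 := hc M hM (t⁻¹ * m * t⁻¹⁻¹) (hM.2.1.conj_mem _ hm t⁻¹)
    have e : ⁅t * c * t⁻¹, m⁆ = t * ⁅c, t⁻¹ * m * t⁻¹⁻¹⁆ * t⁻¹ := by
      simp only [commutatorElement_def]; group
    rw [e]
    exact hRn.conj_mem _ h1 t
  have hRC : R ≤ C := by
    intro r hr M hM m _
    have e : ⁅r, m⁆ = r * (m * r⁻¹ * m⁻¹) := by
      simp only [commutatorElement_def]; group
    rw [e]
    exact mul_mem hr (hRn.conj_mem _ (inv_mem hr) m)
  have hCR : C = R := by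
    by_contra hne
    obtain ⟨M, hM, hMC⟩ := exists_chief hRn hCn (lt_of_le_of_ne hRC (Ne.symm hne))
    have h1 := hR.2 M hM.2.1 hM.2.2.1.le (fun a ha b hb => hMC ha M hM b hb)
    exact hM.2.2.1.ne h1.symm
  have : g ∈ C := hg
  rwa [hCR] at this

end groups

/-- Let `G` be a finite group, `f` a map from the alphabet to `G` whose image generates `G` as a
monoid, and `T` a subset of `G` such that the syntactic monoid of the language
`L = {w : f(w) ∈ T}` is `G` (`hT`).
(1) If `L` has generalized star height at most `n + 1`, then for every chief factor `M/N` of `G`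
there is a single language `K` of height at most `n` such that the syntactic congruence of `K*`
determines the value `f(w)` modulo the centraliser of `M/N`; and for every normal subgroup `R`
such that `G/R` has no nontrivial abelian normal subgroup, as many such stars as there are chief
factors `M/R` jointly determine the value modulo `R`.
(2) If `G` has no nontrivial abelian normal subgroup, then `L` has height at most `n + 1` if and
only if there are languages `K_M` of height at most `n`, one for each minimal normal subgroup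
`M` of `G`, such that the syntactic congruences of the `K_M*` jointly determine the value. -/
theorem result {A G : Type} [Group G] [Finite G]
    (f : A → G) (hf : ∀ g : G, ∃ w : List A, (w.map f).prod = g)
    (T : Set G) (hT : ∀ g : G, (∀ a b : G, a * g * b ∈ T ↔ a * b ∈ T) → g = 1) (n : ℕ) :
    (Ht (n + 1) {w : List A | (w.map f).prod ∈ T} →
      (∀ N M : Subgroup G, IsChief N M → ∃ K : Set (List A), Ht n K ∧
        ∀ w w' : List A, SynEq (star K) w w' →
          ∀ m ∈ M, ⁅(w.map f).prod⁻¹ * (w'.map f).prod, m⁆ ∈ N) ∧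
      (∀ R : Subgroup G, NoAbelian R →
        ∃ K : {M : Subgroup G // IsChief R M} → Set (List A), (∀ M, Ht n (K M)) ∧
          ∀ w w' : List A, (∀ M, SynEq (star (K M)) w w') →
            (w.map f).prod⁻¹ * (w'.map f).prod ∈ R)) ∧
    (NoAbelian (⊥ : Subgroup G) →
      (Ht (n + 1) {w : List A | (w.map f).prod ∈ T} ↔
        ∃ K : {M : Subgroup G // IsChief ⊥ M} → Set (List A), (∀ M, Ht n (K M)) ∧
          ∀ w w' : List A, (∀ M, SynEq (star (K M)) w w') →
            (w.map f).prod = (w'.map f).prod)) := by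
  classical
  have step1 : Ht (n + 1) {w : List A | (w.map f).prod ∈ T} →
      ∀ N M : Subgroup G, IsChief N M → ∃ K : Set (List A), Ht n K ∧
        ∀ w w' : List A, SynEq (star K) w w' →
          ∀ m ∈ M, ⁅(w.map f).prod⁻¹ * (w'.map f).prod, m⁆ ∈ N := by
    intro h N M hNM
    set L : Set (List A) := {w : List A | (w.map f).prod ∈ T} with hLdef
    have hmem : ∀ w, w ∈ L ↔ ev f w ∈ T := fun w => Iff.rfl
    have hL : IsGroupLang L := by
      intro u
      obtain ⟨v, hv⟩ := hf (ev f u)⁻¹
      have hv' : ev f v = (ev f u)⁻¹ := hv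
      refine ⟨v, fun x y => ⟨?_, ?_⟩⟩
      · rw [hmem, hmem]; simp [ev_append, hv']
      · rw [hmem, hmem]; simp [ev_append, hv']
    obtain ⟨F, hF, h1, h2⟩ := hL.refine h
    have h3 : ∀ w w', Cg (star '' F) w w' → ev f w = ev f w' := by
      intro w w' hw
      have h4 := h2 w w' hw
      have h5 : ev f w * (ev f w')⁻¹ = 1 := by
        apply hT
        intro a b
        obtain ⟨x, hx⟩ := hf a
        obtain ⟨y, hy⟩ := hf ((ev f w')⁻¹ * b)
        have hx' : ev f x = a := hx
        have hy' : ev f y = (ev f w')⁻¹ * b := hy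
        have h6 := h4 L rfl x y
        rw [hmem, hmem] at h6
        simp only [ev_append, hx', hy', mul_assoc, mul_inv_cancel_left] at h6 ⊢
        exact h6
      rw [mul_inv_eq_one] at h5
      exact h5
    obtain ⟨X, ⟨K, hK, rfl⟩, h4⟩ := Pool.Agent.GSHR.chief_single f hf (hF.image _)
      (by rintro _ ⟨K, hK, rfl⟩; exact ((h1 K hK).star).finData) h3
      hNM.1 hNM.2.1 hNM.2.2.1 hNM.2.2.2
    refine ⟨K, h1 K hK, fun w w' hw m hm => ?_⟩
    have h5 := h4 w w' (by rintro _ rfl x y; exact hw x y) m hm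
    rw [commutatorElement_def]
    exact h5
  have step2 : Ht (n + 1) {w : List A | (w.map f).prod ∈ T} →
      ∀ R : Subgroup G, NoAbelian R →
        ∃ K : {M : Subgroup G // IsChief R M} → Set (List A), (∀ M, Ht n (K M)) ∧
          ∀ w w' : List A, (∀ M, SynEq (star (K M)) w w') →
            (w.map f).prod⁻¹ * (w'.map f).prod ∈ R := by
    intro h R hR
    have h1 : ∀ M : {M : Subgroup G // IsChief R M}, ∃ K : Set (List A), Ht n K ∧
        ∀ w w' : List A, SynEq (star K) w w' →
          ∀ m ∈ M.1, ⁅(w.map f).prod⁻¹ * (w'.map f).prod, m⁆ ∈ R :=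
      fun M => step1 h R M.1 M.2
    choose K hK1 hK2 using h1
    refine ⟨K, hK1, fun w w' hw => mem_of_centralises hR ?_⟩
    intro M hM m hm
    exact hK2 ⟨M, hM⟩ w w' (hw ⟨M, hM⟩) m hm
  refine ⟨fun h => ⟨step1 h, step2 h⟩, fun hbot => ⟨fun h => ?_, ?_⟩⟩
  · obtain ⟨K, hK1, hK2⟩ := step2 h ⊥ hbot
    refine ⟨K, hK1, fun w w' hw => ?_⟩
    have h1 := hK2 w w' hw
    rw [Subgroup.mem_bot, inv_mul_eq_one] at h1
    exact h1
  · rintro ⟨K, hK, h⟩
    have hfin : (⋃ M : {M : Subgroup G // IsChief ⊥ M}, quots (star (K M))).Finite :=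
      Set.finite_iUnion (fun M => ((hK M).star.finData).quots_finite)
    have h3 := mem_closure_of_determined hfin (L := {w : List A | (w.map f).prod ∈ T}) (by
      intro w w' hw hwL
      have h4 : (w.map f).prod = (w'.map f).prod := h w w' (fun M x y =>
        hw {v | x ++ v ++ y ∈ star (K M)} (Set.mem_iUnion.2 ⟨M, x, y, rfl⟩))
      show (w'.map f).prod ∈ T
      rw [← h4]; exact hwL)
    refine BooleanSubalgebra.closure_bot_sup_induction (p := fun X _ => Ht (n + 1) X)
      ?_ ?_ ?_ ?_ h3
    · intro X hX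
      obtain ⟨M, u, v, rfl⟩ := Set.mem_iUnion.1 hX
      exact (hK M).star.quot u v
    · exact Ht.empty _
    · intro a _ b _ ha hb
      exact ha.union hb
    · intro a _ ha
      exact ha.compl

end Pool.Agent.Held1ffb.ChiefFactorStars
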