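import Pool.Agent.GSH.Simple

set_option autoImplicit false

namespace Pool.Agent.Held1ffb.SimpleStar

open Pool.Agent.GSH

/-- Let `G` be a non-abelian simple group, generated as a monoid by the images of the letters,
and let `T` be a nonempty proper subset of `G`. The language of the words with value in `T` has
generalized star height at most `n + 1` if and only if there is one single language `K` of
height at most `n` such that the syntactic congruence of `K*` determines the value in `G`. -/
theorem result {A G : Type} [Group G] [IsSimpleGroup G] (hna : ∃ a b : G, a * b ≠ b * a)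
    (f : A → G) (hf : ∀ g : G, ∃ w : List A, (w.map f).prod = g)
    (T : Set G) (hT : T.Nonempty) (hT' : T ≠ Set.univ) (n : ℕ) :
    Ht (n + 1) {w : List A | (w.map f).prod ∈ T} ↔
      ∃ K : Set (List A), Ht n K ∧
        ∀ w w' : List A,
          (∀ x y : List A, x ++ w ++ y ∈ star K ↔ x ++ w' ++ y ∈ star K) →
            (w.map f).prod = (w'.map f).prod := by
  constructor
  · intro h
    set L : Set (List A) := {w : List A | (w.map f).prod ∈ T} with hLdef
    have hmem : ∀ w, w ∈ L ↔ ev f w ∈ T := fun w => Iff.rfl
    have hL : IsGroupLang L := by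
      intro u
      obtain ⟨v, hv⟩ := hf (ev f u)⁻¹
      have hv' : ev f v = (ev f u)⁻¹ := hv
      refine ⟨v, fun x y => ⟨?_, ?_⟩⟩
      · rw [hmem, hmem]; simp [ev_append, hv']
      · rw [hmem, hmem]; simp [ev_append, hv']
    obtain ⟨F, hF, h1, h2⟩ := hL.refine h
    -- the stabiliser of T
    let N : Subgroup G :=
      { carrier := {g | ∀ a b : G, a * g * b ∈ T ↔ a * b ∈ T}
        mul_mem' := by
          intro g g' hg hg' a b
          have e1 := hg a (g' * b)
          have e2 := hg' a b
          simp only [mul_assoc] at e1 e2 ⊢
          exact e1.trans e2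
        one_mem' := by intro a b; simp
        inv_mem' := by
          intro g hg a b
          have e1 := hg a (g⁻¹ * b)
          simp only [mul_assoc, mul_inv_cancel_left] at e1 ⊢
          exact e1.symm }
    have hNn : N.Normal := by
      refine ⟨fun g hg c a b => ?_⟩
      have e1 := hg (a * c) (c⁻¹ * b)
      simp only [mul_assoc, mul_inv_cancel_left] at e1 ⊢
      exact e1
    have hN : N = ⊥ := by
      rcases hNn.eq_bot_or_eq_top with h | h
      · exact h
      · exfalso
        obtain ⟨t, ht⟩ := hT
        apply hT'
        ext g
        simp only [Set.mem_univ, iff_true]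
        have hg : t * g⁻¹ ∈ N := by rw [h]; trivial
        have := hg 1 g
        simp at this
        exact this.1 ht
    have h3 : ∀ w w', Cg (star '' F) w w' → ev f w = ev f w' := by
      intro w w' hw
      have h4 := h2 w w' hw
      have h5 : ev f w * (ev f w')⁻¹ ∈ N := by
        intro a b
        obtain ⟨x, hx⟩ := hf a
        obtain ⟨y, hy⟩ := hf ((ev f w')⁻¹ * b)
        have hx' : ev f x = a := hx
        have hy' : ev f y = (ev f w')⁻¹ * b := hy
        have h6 := h4 L rfl x y
        rw [hmem, hmem] at h6
        simp only [ev_append, hx', hy', mul_assoc, mul_inv_cancel_left] at h6 ⊢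
        exact h6
      rw [hN, Subgroup.mem_bot, mul_inv_eq_one] at h5
      exact h5
    obtain ⟨K, hK, h4⟩ := simple_finite hna f hf hF (fun K hK => ((h1 K hK).star).finData) h3
    refine ⟨K, h1 K hK, fun w w' hw => h4 w w' ?_⟩
    rintro _ rfl x y
    exact hw x y
  · rintro ⟨K, hK, h⟩
    have hfin : (quots (star K)).Finite := (hK.star.finData).quots_finite
    have h3 := mem_closure_of_determined hfin (L := {w : List A | (w.map f).prod ∈ T}) (by
      intro w w' hw hwL
      have h4 : (w.map f).prod = (w'.map f).prod := h w w' (fun x y =>
        hw {v | x ++ v ++ y ∈ star K} ⟨x, y, rfl⟩)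
      show (w'.map f).prod ∈ T
      rw [← h4]; exact hwL)
    refine BooleanSubalgebra.closure_bot_sup_induction (p := fun X _ => Ht (n + 1) X)
      ?_ ?_ ?_ ?_ h3
    · rintro X ⟨u, v, rfl⟩
      exact hK.star.quot u v
    · exact Ht.empty _
    · intro a _ b _ ha hb
      exact ha.union hb
    · intro a _ ha
      exact ha.compl

end Pool.Agent.Held1ffb.SimpleStar
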